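import Pool.Agent.N180.ZlF
import Pool.Agent.N64.SubT4

/-!
# ZL/F4: the lower bound from the permutations
-/

open Module Matrix

namespace Pool.Agent.N558.ZL

open Pool.Agent.N180.Zl

/-- The rank of a matrix of traces is at most the rank of the trace pairing. -/
lemma rank_le_pr {K : Type*} [Field K] {m n : Type*} [Fintype m] [Fintype n] [DecidableEq m]
    [DecidableEq n] {α β : Type*} [Fintype α] [Fintype β]
    (X : Submodule K (Matrix m n K)) (Y : Submodule K (Matrix n m K))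
    (x : α → Matrix m n K) (hx : ∀ a, x a ∈ X) (y : β → Matrix n m K) (hy : ∀ b, y b ∈ Y) :
    (Matrix.of fun a b => (x a * y b).trace : Matrix α β K).rank ≤ pr X Y := by
  rw [pr_eq, Matrix.rank_eq_finrank_span_row]
  let Φ : Dual K Y →ₗ[K] (β → K) :=
    { toFun := fun f b => f ⟨y b, hy b⟩
      map_add' := fun f g => rfl
      map_smul' := fun c f => rfl }
  have h1 : Submodule.span K (Set.range (Matrix.of fun a b => (x a * y b).trace : Matrix α β K).row) ≤
      (LinearMap.range (toD X Y)).map Φ := by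
    rw [Submodule.span_le]
    rintro _ ⟨a, rfl⟩
    exact ⟨toD X Y ⟨x a, hx a⟩, ⟨⟨x a, hx a⟩, rfl⟩, rfl⟩
  exact (Submodule.finrank_mono h1).trans (Submodule.finrank_map_le _ _)

section

variable (K : Type*) [Field K] {ι : Type*} [Fintype ι] [DecidableEq ι] {T : Type} [Fintype T]
  [DecidableEq T]

/-- A permutation of the slots. -/
def PL (e : T ≃ T) : Matrix (T → ι) (T → ι) K :=
  Matrix.of fun J I => (1 : Matrix (T → ι) (T → ι) K) (J ∘ e) I

/-- A permutation of the slots. -/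
def PR (e : T ≃ T) : Matrix (T → ι) (T → ι) K :=
  Matrix.of fun J I => (1 : Matrix (T → ι) (T → ι) K) J (I ∘ e)

lemma trace_PL_PR (e e' : T ≃ T) : (PL K e * PR K e' : Matrix (T → ι) (T → ι) K).trace =
    ∑ J : T → ι, if J ∘ e = J ∘ e' then 1 else 0 := by
  rw [Matrix.trace]
  refine Finset.sum_congr rfl fun J _ => ?_
  rw [Matrix.diag_apply, Matrix.mul_apply, Finset.sum_eq_single (J ∘ e)]
  · rw [PL, PR, Matrix.of_apply, Matrix.of_apply, Matrix.one_apply_eq, one_mul, Matrix.one_apply]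
  · intro I _ hI
    rw [PL, Matrix.of_apply, Matrix.one_apply_ne hI.symm, zero_mul]
  · intro h
    exact absurd (Finset.mem_univ _) h

end

variable {K : Type*} [Field K] {ι : Type*} [Fintype ι] [DecidableEq ι]

/-- The lower bound from the permutations. -/
theorem perm_lower [CharZero K] (𝓣 : TFam K ι) : S_perm 𝓣 := by
  classical
  intro n
  refine (Pool.Agent.N64.SubT4.perm_gram ι K n).trans (Nat.mul_le_mul_left _ ?_)
  let e : Equiv.Perm (Fin n) → (Empty ⊕ Fin n ≃ Empty ⊕ Fin n) := fun σ =>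
    Equiv.sumCongr (Equiv.refl Empty) σ
  have hsq : (Ob.one 𝓣).sq n = 1 := kr_one_one
  have hx : ∀ σ, (PL K (e σ) : Matrix (Empty ⊕ Fin n → ι) (Empty ⊕ Fin n → ι) K) ∈
      Ob.HS n (Ob.one 𝓣) (Ob.one 𝓣) := by
    intro σ
    refine ⟨?_, ?_, ?_⟩
    · refine 𝓣.Hm_reindex (e σ) (Equiv.refl _) ?_ (fun _ => rfl) (𝓣.Hm_one ((Ob.one 𝓣).st n))
      rintro (s | s)
      · exact s.elim
      · rfl
    · rw [hsq]; exact Matrix.one_mul _
    · rw [hsq]; exact Matrix.mul_one _
  have hy : ∀ σ, (PR K (e σ) : Matrix (Empty ⊕ Fin n → ι) (Empty ⊕ Fin n → ι) K) ∈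
      Ob.HS n (Ob.one 𝓣) (Ob.one 𝓣) := by
    intro σ
    refine ⟨?_, ?_, ?_⟩
    · refine 𝓣.Hm_reindex (Equiv.refl _) (e σ) (fun _ => rfl) ?_ (𝓣.Hm_one ((Ob.one 𝓣).st n))
      rintro (s | s)
      · exact s.elim
      · rfl
    · rw [hsq]; exact Matrix.one_mul _
    · rw [hsq]; exact Matrix.mul_one _
  have h1 : (Matrix.of fun a b => ((PL K (e a) : Matrix (Empty ⊕ Fin n → ι) (Empty ⊕ Fin n → ι) K) *
      PR K (e b)).trace : Matrix (Equiv.Perm (Fin n)) (Equiv.Perm (Fin n)) K).rank ≤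
      Ob.hs n (Ob.one 𝓣) (Ob.one 𝓣) := rank_le_pr _ _ _ hx _ hy
  refine le_trans (le_of_eq ?_) h1
  congr 1
  ext σ τ
  rw [Matrix.of_apply, Matrix.of_apply, trace_PL_PR, ← (Equiv.sumArrowEquivProdArrow Empty (Fin n)
    ι).symm.sum_comp, Fintype.sum_prod_type, Fintype.sum_unique, Finset.card_filter]
  push_cast
  refine Finset.sum_congr rfl fun f _ => ?_
  by_cases h3 : f ∘ σ = f ∘ τ
  · rw [if_pos h3, if_pos]
    funext s
    rcases s with s | s
    · exact s.elim
    · exact congrFun h3 s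
  · rw [if_neg h3, if_neg]
    intro h4
    apply h3
    funext s
    exact congrFun h4 (Sum.inr s)

end Pool.Agent.N558.ZL
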